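import Pool.Agent.X98.BQ.Final

/-!
# MP_f7c28d_an, Q1 (disproved): the temperature projection of the attractor is all of `L²`

For all `L, ν, g > 0` and every mean-free `θ₀ ∈ L²(𝕋²)` there is a solution of the semi-dissipative
Boussinesq system on `ℝ`, bounded in `H × L²`, with temperature `θ₀` at time `0`.  So the projection
`P_θ 𝒜` is not a proper subset of `L²`.

The definitions are in `Pool/Agent/X98/BQ/Defs.lean`; functions on the torus are given by their Fourier
coefficients.
-/

set_option autoImplicit false

namespace Pool.Agent.Results.MP_f7c28d_an.FullProjection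

open Pool.Agent.X98.BQ.Sys

/-- `P_θ 𝒜 = L²` (mean-free functions). -/
theorem result (L ν g : ℝ) (hL : 0 < L) (hν : 0 < ν) (hg : 0 < g) :
    {θ | ∃ u, (u, θ) ∈ attractor L ν g} = {θ | IsField θ} :=
  Pool.Agent.X98.BQ.projection_eq hL hν hg

end Pool.Agent.Results.MP_f7c28d_an.FullProjection
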